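import Pool.Agent.TH132.E.HMain

/-!
# MP_4e1cf2_ag: Hodge classes on the products of any variety with almost all members of a jointly independent family

Let `W` be a Weil cohomology theory for smooth projective complex varieties (in the intended use the
singular cohomology with rational coefficients) with a functorial Hodge decomposition, such that all
sub-Hodge structures have complements. Let `X i`, for `i` in an arbitrary (for instance infinite) set,
be a **jointly independent** family of varieties: for every product `A` of copies of one `X i` and every
product `B` of copies of the other members all Hodge classes on `A × B` are linear combinations of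
products of Hodge classes on `A` and on `B`. For instance, pairwise non-isogenous elliptic curves.

Then for **every** variety `Z` there is a finite set `E` of indices with at most
`dim H(Z) - dim (span of the Hodge classes on Z)` elements such that for all products `A` of powers of the
`X i`, `i ∉ E`, all Hodge classes on `A × Z` are linear combinations of products of Hodge classes on `A`
and on `Z`. Hence for every system `S` of Hodge classes which is stable under cup products, pull-backs
and push-forwards (absolute Hodge classes, motivated classes, algebraic classes), all Hodge classes on
`A × Z` belong to `S` if and only if this holds for `A` and for `Z`.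

So if all Hodge classes on `Z` are absolute Hodge, then for all elliptic curves outside at most
`dim H(Z)` isogeny classes all Hodge classes on the products of `Z` with these curves are absolute
Hodge, in all degrees.
-/

set_option autoImplicit false

open CategoryTheory AlgebraicGeometry

namespace Pool.Agent.Results.MP_4e1cf2_ag.AllButFewFactors

open Pool.Agent.H914 VarClass Obj WeilCohomology Pool.Agent.TH132.E

/-- **Hodge classes on the products of any variety with the members of a jointly independent family,
with few exceptions.** -/
theorem result {𝒱 : VarClass ℂ} {ops : CycleOps 𝒱} {W : WeilCohomology.{0, 0} ops}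
    [Algebra W.K ℂ] (𝓗 : HodgeTheory W) {ι : Type} [DecidableEq ι] (X : ι → 𝒱.Obj)
    (hX : JointlyIndependent 𝓗 X) (Z : 𝒱.Obj) :
    ∃ E : Finset ι, E.card + Module.finrank W.K (𝓗.hodgeSpace Z) ≤
        Module.finrank W.K (W.H Z) ∧
      ∀ J : Finset ι, Disjoint J E → ∀ A, IsTower X J A →
        𝓗.Splits A Z ∧ ∀ S, ClassSystem 𝓗 S →
          (𝓗.AllIn S (A.prod Z) ↔ 𝓗.AllIn S A ∧ 𝓗.AllIn S Z) := by
  obtain ⟨E, hE, h⟩ := hodge_exceptional 𝓗 X hX Z
  exact ⟨E, hE, fun J hJ A hA => ⟨h J hJ A hA, fun S hS => allIn_prod_iff 𝓗 hS (h J hJ A hA)⟩⟩

end Pool.Agent.Results.MP_4e1cf2_ag.AllButFewFactors
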