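import Pool.Agent.TH5.HL.Real

/-!
# When do the Hodge classes on products of varieties of CM type split?

Let `H j` (`j` in a finite set `J`) be rational Hodge structures with multiplication by number
fields `E j` of degree `dim H j`: pieces of the cohomology groups of any smooth projective varieties
`X j`, for example `H^1` of abelian varieties with complex multiplication, transcendental
lattices of K3 surfaces with complex multiplication, pieces of the cohomology of Calabi-Yau
varieties of CM type.  `H j` is the dual of the rational vector space `E j`; the linear forms given
by the embeddings `σ` of `E j` in `ℂ` span `H j` over `ℂ`, and `u j σ = p - q` if the form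
given by `σ` has type `(p, q)`, so that `u j (conjEmb σ) = - u j σ`.

Let the indices be divided into groups, `γ : J → I`.  The elements of the tensor products of the
`H j` are the rational multilinear forms in variables `x k ∈ E (t k)`; the Hodge classes are those
of types `(p, p)`.

(A) All Hodge classes in all tensor products of the `H j` are linear combinations of external
products of Hodge classes, one for each group, **if and only if** the spaces of traces
`∑ j ∈ group i, ∑ σ, u j σ * σ (z j)` (`z j ∈ E j`) of the groups `i` are linearly independent over
`ℚ` in `ℂ`.

(B) This is so if, for every group `i`, the reflex field of `i` (the field generated by the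
`∑ σ, u j σ * σ z`, `j` in the group `i`) and the field generated by the intersections of the
reflex fields of the other groups with the normal closure of the fields `E j` of the group `i`
have a real intersection; for two groups, if the intersection of the reflex fields is real.

Classes which are absolute Hodge (algebraic, motivated) for all products within each group give,
by external products and linear combinations, classes of the same kind; so in the cases (A) all
Hodge classes on products are absolute Hodge if this holds within each group, and if the spaces of
traces are dependent there are Hodge classes that are not obtained from the groups.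

`HodgeClassesSplit`, `HodgeTraceSpace`, `HodgeTraceSpacesIndependent` are defined in
`Pool/Agent/TH5/HL/Classes.lean`, `reflexField`, `ReflexFieldsMeetReal` in
`Pool/Agent/TH5/HL/Real.lean`, and `IsHodgeForm`, `IsExternalProductOfHodge`, `hullOf` in the start
file `Pool/Agent/H485R3/Hodge/Ext.lean`.
-/

set_option autoImplicit false

namespace Pool.Agent.Results.MP_4e1cf2_ag.HodgeSplittingCriterion

open Pool.Agent.TH5.HL Pool.Agent.H485R3.Hodge

theorem result {I J : Type} [Fintype I] [DecidableEq I] [Fintype J] {E : J → Type}
    [∀ j, Field (E j)] [∀ j, NumberField (E j)] (u : ∀ j, (E j →ₐ[ℚ] ℂ) → ℤ)
    (hu : ∀ j σ, u j (conjEmb σ) = - u j σ) (γ : J → I) :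
    (HodgeClassesSplit u γ ↔ HodgeTraceSpacesIndependent u γ) ∧
    (ReflexFieldsMeetReal u γ → HodgeClassesSplit u γ) :=
  ⟨hodge_split_iff u γ hu, fun h => (hodge_split_iff u γ hu).2 (independent_of_meet u γ hu h)⟩

end Pool.Agent.Results.MP_4e1cf2_ag.HodgeSplittingCriterion
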