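import Pool.Agent.TH119.S2.MainQ

/-!
# The Hodge conjecture for products of surfaces with sufficiently many independent periods

Let `S_0, ..., S_(r-1)` be smooth projective complex surfaces with `b_1 = 0`, and let
`T = ⊕ T_i`, `T_i` the transcendental part of `H^2(S_i)(1)`: a polarised rational Hodge structure
with Hodge numbers `(p_i, q_i, p_i)`, `p_i` the geometric genus (structure `HS n`: the rational
intersection form `Q` and the Hodge operator `x`, which is `1`, `0`, `-1` on the pieces of type
`(1,-1)`, `(0,0)`, `(-1,1)`; `c` says to which surface a basis vector belongs).

The hypotheses (structure `Wide`) are:

* the only Hodge endomorphisms of `T` are the rational scalars on the `T_i` (`endo`);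
* for each `i` one of the following holds (`num`): `p_i = 1` and `q_i` is not `0` or `2`; or
  `2 p_i^2 (p_i^2 + 1) < (q_i - 2 p_i) (q_i + p_i)`; or (the new condition) at least `t` of the
  affine coordinates of the period point `H^(2,0) ⊆ T_i ⊗ ℂ` are algebraically independent over
  the rational numbers (`HasPeriods`), for some `t` with

  `2 p_i^3 + 4 p_i < (q_i - 2 p_i) t + q_i`.

The period domain has dimension `p q + p (p - 1) / 2`, so that (for instance if `q ≥ 3 p`) the last
condition only asks for a part of the period coordinates to be independent, there is no condition
on their nature otherwise, and it is satisfied by very general members of all families for which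
the closure of the image of the period map has dimension at least `t`; it may hold for surfaces
defined over a number field.

The cohomology of `S_i` is spanned by algebraic classes (`Fin s`, `d` says to which surface such a
class belongs) and `T_i`.  By Poincare duality and the Kuenneth formula a class on
`S_(a 1) × ... × S_(a m)` is a rational `m`-linear form `t` on the total cohomology; it is a Hodge
class iff `IsHodgeS` holds.  `algP` is spanned by the exterior products of algebraic classes on
some of the factors and of the transcendental parts of the diagonals on pairs of equal factors;
these classes are algebraic.

We prove: every Hodge class on a product of the surfaces in which each `S_i` occurs fewer than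
`rank T_i` times (more generally: every Hodge class `t` whose Kuenneth components involve fewer
than `rank T_i` factors of `T_i`) is algebraic.

The proof: we show that the Lie algebra of the Hodge group of `T` is the sum of the `so(T_i)`
(`Pool.Agent.TH119.S2.mainQF`). by a derivation of the complex numbers with prescribed values on the independent
coordinates the Hodge operator is moved within the Hodge Lie algebra, so that the positive part of
the latter has dimension at least `t`.  The Casimir operator and this bound show that the kernel of
the degree zero part on `H^(2,0)` has dimension at least four; this is the starting point for a
structure theory of graded Lie algebras of skew operators (`Pool.Agent.W544.PG`), in which the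
case that a Galois conjugate of the Hodge operator lies in the commutant of the operators of
degree one (tensor products) has now to be excluded by the number of periods as well.
-/

open Matrix Finset Module

namespace Pool.Agent.Results.MP_4e1cf2_ag.IndependentPeriodsSurfaces

open Pool.Agent.W544.PG Pool.Agent.TH119.S2

/-- Surfaces with sufficiently many independent periods: all Hodge classes on products of the
surfaces (with fewer than `rank T_i` factors of each `T_i`) are algebraic. -/
theorem result {n r s m : ℕ} (T : HS n) (c : Fin n → Fin r) (p q : Fin r → ℕ)
    (hT : Wide T c p q) (d : Fin s → Fin r) (a : Fin m → Fin r)
    (t : (Fin m → Fin s ⊕ Fin n) → ℚ) (ht : T.IsHodgeS t)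
    (hta : ∀ J, t J ≠ 0 → ∀ j, Sum.elim d c (J j) = a j)
    (htr : ∀ J, t J ≠ 0 → ∀ i, (univ.filter fun j => ∃ b, J j = Sum.inr b ∧ c b = i).card <
      2 * p i + q i) : t ∈ T.algP c d a :=
  hcQ hT d a t ht hta htr

end Pool.Agent.Results.MP_4e1cf2_ag.IndependentPeriodsSurfaces
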