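import Pool.Agent.TH125.Abh.Comp

/-!
# Hodge and absolute Hodge classes on products with powers of very general nodal members

`C`: the Hodge classes, `C'`: the absolute Hodge classes; `X`: a very general member of a family
which acquires a node, `Γ`: the fundamental group of the parameter space, `Z`: any variety.
-/

universe u v w

namespace Pool.Agent.Results.MP_4e1cf2_ag.VeryGeneralNodalTowers

open Pool.Agent.H914 Pool.Agent.H914.VarClass Pool.Agent.H914.VarClass.Obj Pool.Agent.TH125.Gal
  Pool.Agent.TH125.Abh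

/-- **Hodge and absolute Hodge classes on products with powers of very general nodal members.** -/
theorem result {k : Type u} [Field k] {𝒱 : VarClass k} {ops : CycleOps 𝒱}
    (W : WeilCohomology.{u, v} ops) {Γ : Type w} [Group Γ] (χ : Γ →* W.Kˣ) (X Z : GVar W Γ)
    (n : ℕ) (h : NodalOver χ X n Z) (Y : GVar W Γ) (hY : IsPowProd X n Z Y)
    (C : ∀ V : 𝒱.Obj, ℕ → Set (W.H V)) (hC : IsClassTheory W C) (hT : AreTateClasses χ C Y) :
    GeneratedFrom W C (snd (power ops X.X n) Z.X) ∧
      ∀ C' : ∀ V : 𝒱.Obj, ℕ → Set (W.H V), IsClassTheory W C' → StableSum W C' →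
        (Implies W C C' Y.X ↔ Implies W C C' Z.X) := by
  cases hY with
  | mk υ h1 h2 =>
    exact ⟨(nodal_classes h (IsPowProd.mk υ h1 h2) hC hT).1,
      fun C' hC' hs => nodal_implies h (IsPowProd.mk υ h1 h2) hC hC' hs hT⟩

end Pool.Agent.Results.MP_4e1cf2_ag.VeryGeneralNodalTowers
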